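import Pool.Agent.TH125.Gal.Pub

/-!
# Theories of classes like the absolute Hodge classes: definitions
-/

open CategoryTheory AlgebraicGeometry

universe u v w

namespace Pool.Agent.TH125.Abh

open Pool.Agent.TH125.Gal

section Alg

variable {K : Type*} [Field K] {A : Type*} [Ring A] [Algebra K A] {B : Type*} [Ring B]
  [Algebra K B] {Γ : Type*} [Group Γ]

/-- The product of an element of `S i` and an element of `C j` is in `C (i + j)`. -/
def ProdStable (S C : ℕ → Set A) : Prop :=
  ∀ i j, ∀ a ∈ S i, ∀ c ∈ C j, a * c ∈ C (i + j)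

/-- The finite sums of products `a * f b` where `a` is in some `S i` and `b` is in some `C l`. -/
def sumsOfProducts (f : B →ₐ[K] A) (S : ℕ → Set A) (C : ℕ → Set B) : Set A :=
  AddSubmonoid.closure {x | ∃ i l, ∃ a ∈ S i, ∃ b ∈ C l, x = a * f b}

/-- For all `j`, every element of `C j` is multiplied by `χ g ^ j` by all `g` in a subgroup of finite
index. -/
def TateSet (χ : Γ →* Kˣ) (C : ℕ → Set A) (ρ : Γ →* (A ≃ₐ[K] A)) : Prop :=
  ∀ j, ∀ c ∈ C j, ∃ Δ : Subgroup Γ, Δ.FiniteIndex ∧ ∀ g ∈ Δ, ρ g c = (χ g : K) ^ j • c

/-- The action `ρ` has the formal properties of a Galois action, and some `g` in `Γ` acts on `T` by a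
Picard-Lefschetz formula and trivially through `σ` and `χ`. -/
structure NodeAct (χ : Γ →* Kˣ) (T : Submodule K A) (gr : ℕ → Submodule K A) (n : ℕ)
    (tr : A →ₗ[K] K) (C : ℕ → Set A) (ρ : Γ →* (A ≃ₐ[K] A)) (σ : Γ →* (B ≃ₐ[K] B)) : Prop where
  galois : IsGaloisAct χ gr n tr C ρ
  node : ∃ g : Γ, PLAct tr T ρ g ∧ χ g = 1 ∧ TrivAct σ g

end Alg

open Pool.Agent.H914 Pool.Agent.H914.VarClass Pool.Agent.H914.VarClass.Obj
  Pool.Agent.H914.WeilCohomology Pool.Agent.H281R3.HT

variable {k : Type u} [Field k] {𝒱 : VarClass k} {ops : CycleOps 𝒱}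

/-- The classes in `C X j` have degree `2 j`, and `C X j` contains the classes of the algebraic
cycles of codimension `j`. -/
def ContainsAlgebraic (W : WeilCohomology.{u, v} ops) (C : ∀ X : 𝒱.Obj, ℕ → Set (W.H X)) : Prop :=
  ∀ X j, C X j ⊆ W.gr X (2 * j) ∧ algClasses W X j ⊆ C X j

/-- The product of the class of an algebraic cycle of codimension `i` with an element of `C X j` is
in `C X (i + j)`. -/
def StableProd (W : WeilCohomology.{u, v} ops) (C : ∀ X : 𝒱.Obj, ℕ → Set (W.H X)) : Prop :=
  ∀ X, ProdStable (algClasses W X) (C X)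

/-- The sets `C X j` are stable under pull-backs. -/
def StablePull (W : WeilCohomology.{u, v} ops) (C : ∀ X : 𝒱.Obj, ℕ → Set (W.H X)) : Prop :=
  ∀ (X Y : 𝒱.Obj) (f : X ⟶ Y) (j : ℕ), ∀ c ∈ C Y j, W.map f c ∈ C X j

/-- The sets `C X j` are stable under push-forwards. -/
def StablePush (W : WeilCohomology.{u, v} ops) (C : ∀ X : 𝒱.Obj, ℕ → Set (W.H X)) : Prop :=
  ∀ (X Y : 𝒱.Obj) (f : X ⟶ Y) (i j : ℕ), i + Y.dim = j + X.dim →
    ∀ c ∈ C X i, W.push f c ∈ C Y j

/-- The sets `C X j` of classes in `H^(2j)(X)` have formal properties of the sets of the absolute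
Hodge classes (with Tate twists suppressed): they contain the classes of algebraic cycles and are
stable under products with the classes of algebraic cycles, pull-backs and push-forwards. -/
structure IsClassTheory (W : WeilCohomology.{u, v} ops) (C : ∀ X : 𝒱.Obj, ℕ → Set (W.H X)) :
    Prop where
  algebraic : ContainsAlgebraic W C
  prod : StableProd W C
  pull : StablePull W C
  push : StablePush W C

/-- Every class in `C Y j`, for all `j`, is a finite sum of products `a · f^* b` where `a` is the
class of an algebraic cycle on `Y` and `b` belongs to the classes `C Z l` on `Z`. -/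
def GeneratedFrom (W : WeilCohomology.{u, v} ops) (C : ∀ X : 𝒱.Obj, ℕ → Set (W.H X))
    {Y Z : 𝒱.Obj} (f : Y ⟶ Z) : Prop :=
  ∀ j, C Y j ⊆ sumsOfProducts (W.map f) (algClasses W Y) (C Z)

/-- All the classes in `C X j`, for all `j`, are classes of algebraic cycles on `X` of codimension
`j` with rational coefficients. -/
def AllAlgebraic (W : WeilCohomology.{u, v} ops) (C : ∀ X : 𝒱.Obj, ℕ → Set (W.H X))
    (X : 𝒱.Obj) : Prop :=
  ∀ j, C X j ⊆ algClasses W X j

variable {W : WeilCohomology.{u, v} ops} {Γ : Type w} [Group Γ]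

/-- For all `j`, every element of `C X j` is multiplied by `χ g ^ j` by all `g` in a subgroup of
finite index. -/
def AreTateClasses (χ : Γ →* W.Kˣ) (C : ∀ X : 𝒱.Obj, ℕ → Set (W.H X)) (X : GVar W Γ) : Prop :=
  TateSet χ (C X.X) X.act

/-- The transcendental cohomology of `X` is in the middle degree and irreducible under all subgroups
of finite index. -/
def IrredMiddle (X : GVar W Γ) : Prop :=
  transcendental W X.X ≤ W.gr X.X X.X.dim ∧ IrredAct X.act (transcendental W X.X)

/-- The action on the cohomology of `X` has the formal properties of a Galois action, and some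
element of `Γ` acts on the transcendental cohomology of `X` by a Picard-Lefschetz formula and
trivially on the cohomology of `Z` and by `χ`. -/
def HasNode (χ : Γ →* W.Kˣ) (X Z : GVar W Γ) : Prop :=
  NodeAct χ (transcendental W X.X) (W.gr X.X) X.X.dim (W.tr X.X) (algClasses W X.X) X.act Z.act

/-- The action on the cohomology of `X` has the formal properties of a Galois action; numerical and
homological equivalence coincide for `X` and for `X ^ (n + 1)`; the transcendental
cohomology `T` of `X` is in the middle degree and irreducible under all subgroups of finite index;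
some element of `Γ` acts on `T` by a Picard-Lefschetz formula and trivially on the cohomology of `Z`
and by `χ`; if the dimension of `X` is even, the coefficient field contains only finitely many
`ζ + ζ⁻¹`, `ζ` a root of unity, and `n + 1 < dim T`. -/
structure NodalOver (χ : Γ →* W.Kˣ) (X : GVar W Γ) (n : ℕ) (Z : GVar W Γ) : Prop where
  homEqNum : HomEqNum W X.X ∧ HomEqNum W (power ops X.X n)
  irreducible : IrredMiddle X
  node : HasNode χ X Z
  few : Even X.X.dim → FewRoots W.K ∧ n + 1 < transRank W X.X

end Pool.Agent.TH125.Abh
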