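import Pool.Agent.TH125.Abh.Def

/-!
# Comparison of two theories of classes: definitions
-/

open CategoryTheory AlgebraicGeometry

universe u v w

namespace Pool.Agent.TH125.Abh

open Pool.Agent.H914 Pool.Agent.H914.VarClass Pool.Agent.H914.VarClass.Obj

variable {k : Type u} [Field k] {𝒱 : VarClass k} {ops : CycleOps 𝒱}

/-- The sets `C X j` are stable under sums. -/
def StableSum (W : WeilCohomology.{u, v} ops) (C : ∀ X : 𝒱.Obj, ℕ → Set (W.H X)) : Prop :=
  ∀ X j, ∀ x ∈ C X j, ∀ y ∈ C X j, x + y ∈ C X j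

/-- Every class of the theory `C` on `X` belongs to the theory `C'`. -/
def Implies (W : WeilCohomology.{u, v} ops) (C C' : ∀ X : 𝒱.Obj, ℕ → Set (W.H X))
    (X : 𝒱.Obj) : Prop :=
  ∀ j, C X j ⊆ C' X j

end Pool.Agent.TH125.Abh
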