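import Pool.Agent.TH125.Abh.Main
import Pool.Agent.TH125.Abh.CompDef

/-!
# Comparison of two theories of classes on products with powers
-/

open CategoryTheory AlgebraicGeometry Finset

set_option linter.unusedSectionVars false

universe u v w

namespace Pool.Agent.TH125.Abh

open Pool.Agent.H914 Pool.Agent.H914.VarClass Pool.Agent.H914.VarClass.Obj
  Pool.Agent.H914.WeilCohomology Pool.Agent.H281R3.HT Pool.Agent.W552 Pool.Agent.H447
  Pool.Agent.TH125.Gal

variable {k : Type u} [Field k] {𝒱 : VarClass k} {ops : CycleOps 𝒱}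

variable {W : WeilCohomology.{u, v} ops} {Γ : Type w} [Group Γ] {χ : Γ →* W.Kˣ}
  {C C' : ∀ X : 𝒱.Obj, ℕ → Set (W.H X)} {X Y : 𝒱.Obj}

theorem zero_mem' (h : IsClassTheory W C') (j : ℕ) : (0 : W.H X) ∈ C' X j :=
  (h.algebraic X j).2 (alg_zero j)

lemma CS.proj (h : IsClassTheory W C') (hs : StableSum W C') {x : W.H X} (hx : CS W C' X x)
    (j : ℕ) : H914.proj (W.isInternal X) (2 * j) x ∈ C' X j := by
  refine CS.ind (p := fun x => H914.proj (W.isInternal X) (2 * j) x ∈ C' X j) ?_ ?_ ?_ hx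
  · rw [map_zero]
    exact zero_mem' h j
  · intro i x hx
    have hgr := (h.algebraic X i).1 hx
    by_cases hij : i = j
    · subst hij
      rw [proj_same _ hgr]
      exact hx
    · rw [proj_ne _ hgr (by omega)]
      exact zero_mem' h j
  · intro a b ha hb
    rw [map_add]
    exact hs X j _ ha _ hb

lemma CS.mem (h : IsClassTheory W C') (hs : StableSum W C') {x : W.H X} (hx : CS W C' X x)
    {j : ℕ} (hj : x ∈ W.gr X (2 * j)) : x ∈ C' X j := by
  rw [← proj_same (W.isInternal X) hj]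
  exact CS.proj h hs hx j

lemma CS.map (h : IsClassTheory W C') (f : X ⟶ Y) {x : W.H Y} (hx : CS W C' Y x) :
    CS W C' X (W.map f x) := by
  refine CS.ind (p := fun x => CS W C' X (W.map f x)) ?_ ?_ ?_ hx
  · rw [map_zero]
    exact CS.zero
  · intro j x hx
    exact CS.of (h.pull X Y f j x hx)
  · intro a b ha hb
    rw [map_add]
    exact ha.add hb

theorem generated_implies (hth : IsClassTheory W C) (hth' : IsClassTheory W C')
    (hs : StableSum W C') {Y Z : 𝒱.Obj} {f : Y ⟶ Z} (h : GeneratedFrom W C f)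
    (hZ : Implies W C C' Z) : Implies W C C' Y := by
  intro j c hc
  refine CS.mem hth' hs (x := c) ?_ ((hth.algebraic _ j).1 hc)
  refine AddSubmonoid.closure_le (S := AddSubmonoid.closure (⋃ j, C' Y j)) |>.2 ?_ (h j hc)
  rintro _ ⟨i, l, a, ha, b, hb, rfl⟩
  exact CS.mul hth' (W552.AS.of ha) (CS.map hth' f (CS.of (hZ l hb)))

theorem factor_implies (hth : IsClassTheory W C) (hth' : IsClassTheory W C')
    (hs : StableSum W C') {A B : 𝒱.Obj} {a : W.H A}
    (ha : W552.AS W A a) (ha0 : W.tr A a ≠ 0) (h : Implies W C C' (A.prod B)) :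
    Implies W C C' B := by
  intro j c hc
  refine CS.mem hth' hs (x := c) ?_ ((hth.algebraic _ j).1 hc)
  have h1 : CS W C' (A.prod B) (W.map (snd A B) c) :=
    CS.of (h j (hth.pull _ _ (snd A B) j c hc))
  have h2 := CS.push hth' (snd A B) (CS.mul hth' (ha.map (fst A B)) h1)
  rw [W.push_snd] at h2
  obtain ⟨q, hq⟩ := ha.tr
  have hq0 : (q : W.K) ≠ 0 := hq ▸ ha0
  have h3 := CS.mul hth' (W552.AS.smul q⁻¹ (W552.AS.one (W := W) (X := B))) h2
  rwa [smul_mul_assoc, one_mul, smul_smul, hq, Rat.cast_inv, inv_mul_cancel₀ hq0, one_smul] at h3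

/-- **Comparison of two theories of classes on products with powers.** -/
theorem nodal_implies {X Z : GVar W Γ} {n : ℕ} (h : NodalOver χ X n Z)
    {υ : Γ →* (W.H ((power ops X.X n).prod Z.X) ≃ₐ[W.K] W.H ((power ops X.X n).prod Z.X))}
    (hY : IsPowProd X n Z ⟨_, υ⟩) (hth : IsClassTheory W C) (hth' : IsClassTheory W C')
    (hs : StableSum W C')
    (hC : AreTateClasses χ C ⟨(power ops X.X n).prod Z.X, υ⟩) :
    Implies W C C' ((power ops X.X n).prod Z.X) ↔ Implies W C C' Z.X := by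
  obtain ⟨hgen, _⟩ := nodal_classes h hY hth hC
  refine ⟨fun h1 => ?_, fun hZ => generated_implies hth hth' hs hgen hZ⟩
  obtain ⟨g, hPL, _, _⟩ := h.node.node
  have h1X : (1 : W.H X.X) ≠ 0 := by
    obtain ⟨δ, hδ, hδ0, _⟩ := hPL
    intro h3
    apply hδ0
    rw [← one_mul δ, h3, zero_mul]
  have hN1 : (1 : W.H (power ops X.X n)) ≠ 0 := by
    obtain ⟨x, hx⟩ := exists_tr h1X
    have h2 : W.tr (nest ops n fun _ => (⟨X.X, 0⟩ : Polarized 𝒱)).X
        (mono (prj ops n fun _ => (⟨X.X, 0⟩ : Polarized 𝒱)) fun _ => x) ≠ 0 := by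
      rw [tr_mono]
      exact pow_ne_zero _ hx
    intro h0
    apply h2
    have h3 : (1 : W.H (nest ops n fun _ => (⟨X.X, 0⟩ : Polarized 𝒱)).X) = 0 := h0
    rw [← one_mul (mono _ _), h3, zero_mul, map_zero]
  obtain ⟨a, ha, ha0⟩ : ∃ a, W552.AS W (power ops X.X n) a ∧ W.tr _ a ≠ 0 := by
    by_contra hcon
    push Not at hcon
    apply hN1
    refine homEqNum_iff.1 h.homEqNum.2 1 W552.AS.one fun w hw => ?_
    rw [one_mul]
    exact hcon w hw
  exact factor_implies hth hth' hs ha ha0 h1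

end Pool.Agent.TH125.Abh
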