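import Pool.Agent.TH125.Abh.Def
import Pool.Agent.TH125.Gal.Std
import Pool.Agent.TH125.Gal.Fpp

/-!
# Theories of classes on products with powers
-/

open CategoryTheory AlgebraicGeometry Finset

set_option linter.unusedSectionVars false

universe u v w

namespace Pool.Agent.TH125.Abh

open Pool.Agent.H914 Pool.Agent.H914.VarClass Pool.Agent.H914.VarClass.Obj
  Pool.Agent.H914.WeilCohomology Pool.Agent.H281R3.HT Pool.Agent.W552 Pool.Agent.H447
  Pool.Agent.TH125.Gal

variable {k : Type u} [Field k] {𝒱 : VarClass k} {ops : CycleOps 𝒱}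
  {W : WeilCohomology.{u, v} ops} {Γ : Type w} [Group Γ] {χ : Γ →* W.Kˣ} {G : Set (GVar W Γ)}
  {C : ∀ X : 𝒱.Obj, ℕ → Set (W.H X)} {X Y : 𝒱.Obj}

/-- Sums of classes of the theory. -/
def CS (W : WeilCohomology.{u, v} ops) (C : ∀ X : 𝒱.Obj, ℕ → Set (W.H X)) (X : 𝒱.Obj)
    (x : W.H X) : Prop :=
  x ∈ AddSubmonoid.closure (⋃ j, C X j)

namespace CS

lemma of {j : ℕ} {x : W.H X} (hx : x ∈ C X j) : CS W C X x :=
  AddSubmonoid.subset_closure (Set.mem_iUnion.2 ⟨j, hx⟩)

lemma zero : CS W C X 0 := AddSubmonoid.zero_mem _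

lemma add {x y : W.H X} (hx : CS W C X x) (hy : CS W C X y) : CS W C X (x + y) :=
  AddSubmonoid.add_mem _ hx hy

lemma ind {p : W.H X → Prop} (h0 : p 0) (h1 : ∀ j, ∀ x ∈ C X j, p x)
    (h2 : ∀ x y, p x → p y → p (x + y)) {x : W.H X} (hx : CS W C X x) : p x := by
  induction hx using AddSubmonoid.closure_induction with
  | mem x hx =>
    obtain ⟨j, hj⟩ := Set.mem_iUnion.1 hx
    exact h1 j x hj
  | zero => exact h0
  | add x y _ _ hx hy => exact h2 x y hx hy

lemma mul (h : IsClassTheory W C) {a x : W.H X} (ha : W552.AS W X a) (hx : CS W C X x) :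
    CS W C X (a * x) := by
  refine W552.AS.ind (p := fun a => CS W C X (a * x)) ?_ ?_ ha
  · intro i a ha
    refine ind (p := fun x => CS W C X (a * x)) ?_ ?_ ?_ hx
    · rw [mul_zero]; exact zero
    · intro j x hx; exact of (h.prod X i j a ha x hx)
    · intro x y hx hy; rw [mul_add]; exact hx.add hy
  · intro a b ha hb; rw [add_mul]; exact ha.add hb

lemma push (h : IsClassTheory W C) (g : X ⟶ Y) {x : W.H X} (hx : CS W C X x) :
    CS W C Y (W.push g x) := by
  refine ind (p := fun x => CS W C Y (W.push g x)) ?_ ?_ ?_ hx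
  · rw [map_zero]; exact zero
  · intro j x hx
    by_cases hj : X.dim ≤ j + Y.dim
    · exact of (h.push X Y g j (j + Y.dim - X.dim) (by omega) x hx)
    · have h1 := W.push_mem g ((h.algebraic X j).1 hx)
      rw [grZ_of_neg (by push_cast; omega)] at h1
      rw [(Submodule.mem_bot _).1 h1]
      exact zero
  · intro a b ha hb; rw [map_add]; exact ha.add hb

end CS

/-- Sums of products. -/
def Gn (W : WeilCohomology.{u, v} ops) (C : ∀ X : 𝒱.Obj, ℕ → Set (W.H X)) {Y Z : 𝒱.Obj}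
    (f : Y ⟶ Z) (x : W.H Y) : Prop :=
  x ∈ AddSubmonoid.closure {x | ∃ i l, ∃ a ∈ algClasses W Y i, ∃ b ∈ C Z l, x = a * W.map f b}

lemma Gn.mk {Y Z : 𝒱.Obj} (f : Y ⟶ Z) {a : W.H Y} (ha : W552.AS W Y a) {b : W.H Z}
    (hb : CS W C Z b) : Gn W C f (a * W.map f b) := by
  refine W552.AS.ind (p := fun a => Gn W C f (a * W.map f b)) ?_ ?_ ha
  · intro i a ha
    refine CS.ind (p := fun b => Gn W C f (a * W.map f b)) ?_ ?_ ?_ hb
    · rw [map_zero, mul_zero]; exact AddSubmonoid.zero_mem _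
    · intro l b hb
      exact AddSubmonoid.subset_closure ⟨i, l, a, ha, b, hb, rfl⟩
    · intro b b' h h'
      rw [map_add, mul_add]
      exact AddSubmonoid.add_mem _ h h'
  · intro a a' h h'
    rw [add_mul]
    exact AddSubmonoid.add_mem _ h h'

/-- Dual bases of the algebraic classes which consist of algebraic classes. -/
theorem exists_dual {A : 𝒱.Obj} (hD : HomEqNum W A) : ∃ (N : ℕ) (m m' : Fin N → W.H A),
    (∀ l, W552.AS W A (m l)) ∧ (∀ l, W552.AS W A (m' l)) ∧
      ∀ x ∈ algSpan W A, x = ∑ l, bil W A (m' l) x • m l := by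
  classical
  obtain ⟨s⟩ := exists_SB hD
  refine ⟨s.NC, fun l => s.uC l, fun l => s.bC l, fun l => ?_, fun l => W552.AS.of (s.alg l),
    fun x hx => expand_uC s hx⟩
  have hb : ∀ l, W552.AS W A (s.bC l : W.H A) := fun l => W552.AS.of (s.alg l)
  choose q hq using fun i j => alg_rat (s.alg i) (s.alg j)
  set Q : Matrix (Fin s.NC) (Fin s.NC) ℚ := Matrix.of q with hQ
  set U : Matrix (Fin s.NC) (Fin s.NC) W.K := Matrix.of fun i j => s.bC.repr (s.uC i) j with hU
  have hUG : U * Q.map (Rat.castHom W.K) = 1 := by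
    ext i j
    rw [Matrix.mul_apply, Matrix.one_apply]
    have h1 := s.uC_bC i j
    have h2 : (s.uC i : W.H A) = ∑ l, s.bC.repr (s.uC i) l • (s.bC l : W.H A) := by
      conv_lhs => rw [← s.bC.sum_repr (s.uC i)]
      rw [Submodule.coe_sum]
      rfl
    rw [h2, map_sum, LinearMap.sum_apply] at h1
    rw [show (if i = j then (1 : W.K) else 0) = if j = i then 1 else 0 by
      simp only [eq_comm], ← h1]
    refine Finset.sum_congr rfl fun l _ => ?_
    rw [map_smul, LinearMap.smul_apply, hq, smul_eq_mul]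
    rfl
  have hdet : Q.det ≠ 0 := by
    intro h0
    have h1 := congrArg Matrix.det hUG
    rw [Matrix.det_mul, ← RingHom.mapMatrix_apply, ← RingHom.map_det, h0, map_zero, mul_zero,
      Matrix.det_one] at h1
    exact zero_ne_one h1
  have hV : U = Q⁻¹.map (Rat.castHom W.K) := by
    have h1 : Q.map (Rat.castHom W.K) * Q⁻¹.map (Rat.castHom W.K) = 1 := by
      rw [← Matrix.map_mul, Matrix.mul_nonsing_inv _ (isUnit_iff_ne_zero.2 hdet)]
      simp
    calc U = U * (Q.map (Rat.castHom W.K) * Q⁻¹.map (Rat.castHom W.K)) := by rw [h1, mul_one]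
      _ = Q⁻¹.map (Rat.castHom W.K) := by rw [← mul_assoc, hUG, one_mul]
  have h2 : (s.uC l : W.H A) = ∑ i, ((Q⁻¹ l i : ℚ) : W.K) • (s.bC i : W.H A) := by
    conv_lhs => rw [← s.bC.sum_repr (s.uC l)]
    rw [Submodule.coe_sum]
    refine Finset.sum_congr rfl fun i _ => ?_
    have h3 := congrFun (congrFun hV l) i
    change s.bC.repr (s.uC l) i = ((Q⁻¹ l i : ℚ) : W.K) at h3
    rw [← h3]
    rfl
  change W552.AS W A (s.uC l : W.H A)
  rw [h2]
  refine W552.AS.ratSub.sum _ fun i _ => (hb i).smul _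

theorem lspan_expand' {A B : 𝒱.Obj} {N : ℕ} {m m' : Fin N → W.H A}
    (hexp : ∀ x ∈ algSpan W A, x = ∑ l, bil W A (m' l) x • m l) {c : W.H (A.prod B)}
    (hc : c ∈ LSpan W A B) :
    c = ∑ l, W.map (fst A B) (m l) * W.map (snd A B) (cn (m' l) c) := by
  induction hc using Submodule.span_induction with
  | mem c hc =>
    obtain ⟨a, ha, b, rfl⟩ := hc
    have h1 : W.map (fst A B) a = ∑ l, bil W A (m' l) a • W.map (fst A B) (m l) := by
      conv_lhs => rw [hexp a ha]
      rw [map_sum]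
      simp only [map_smul]
    conv_lhs => rw [h1, Finset.sum_mul]
    refine Finset.sum_congr rfl fun k _ => ?_
    rw [cn_ext, ← bil_apply, map_smul, mul_smul_comm, smul_mul_assoc]
  | zero => simp [cn]
  | add x y _ _ hx hy =>
    conv_lhs => rw [hx, hy]
    rw [← Finset.sum_add_distrib]
    refine Finset.sum_congr rfl fun k _ => ?_
    rw [cn_add, map_add, mul_add]
  | smul q x _ hx =>
    conv_lhs => rw [hx]
    rw [Finset.smul_sum]
    refine Finset.sum_congr rfl fun k _ => ?_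
    rw [cn_smul, map_smul, mul_smul_comm]

/-- Generation for a product. -/
theorem prod_generated (hth : IsClassTheory W C) {A B : 𝒱.Obj} (hD : HomEqNum W A)
    (hspan : ∀ j, ∀ c ∈ C (A.prod B) j, c ∈ LSpan W A B) :
    GeneratedFrom W C (snd A B) := by
  obtain ⟨N, m, m', hm, hm', hexp⟩ := exists_dual hD
  intro j c hc
  have hcz := lspan_expand' hexp (hspan j c hc)
  rw [hcz]
  refine AddSubmonoid.sum_mem _ fun k _ => Gn.mk _ ((hm k).map _) ?_
  exact CS.push hth _ (CS.mul hth ((hm' k).map _) (CS.of hc))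

theorem generated_algebraic (hth : IsClassTheory W C) {Y Z : 𝒱.Obj} {f : Y ⟶ Z}
    (h : GeneratedFrom W C f) (hZ : AllAlgebraic W C Z) : AllAlgebraic W C Y := by
  intro j c hc
  refine W552.AS.alg (x := c) ?_ ((hth.algebraic _ j).1 hc)
  refine AddSubmonoid.closure_le (S := AddSubmonoid.closure (⋃ j, algClasses W Y j)) |>.2 ?_
    (h j hc)
  rintro _ ⟨i, l, a, ha, b, hb, rfl⟩
  exact (W552.AS.of ha).mul ((W552.AS.of (hZ l hb)).map f)

/-- If all the classes on a product are algebraic, the same is true for the second factor. -/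
theorem factor_algebraic (hth : IsClassTheory W C) {A B : 𝒱.Obj} {a : W.H A}
    (ha : W552.AS W A a) (ha0 : W.tr A a ≠ 0) (h : AllAlgebraic W C (A.prod B)) :
    AllAlgebraic W C B := by
  intro j c hc
  refine W552.AS.alg (x := c) ?_ ((hth.algebraic _ j).1 hc)
  have h1 : W552.AS W (A.prod B) (W.map (snd A B) c) :=
    W552.AS.of (h j (hth.pull _ _ (snd A B) j c hc))
  have h2 := ((ha.map (fst A B)).mul h1).push (snd A B)
  rw [W.push_snd] at h2
  obtain ⟨q, hq⟩ := ha.tr
  have hq0 : (q : W.K) ≠ 0 := hq ▸ ha0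
  have h3 := h2.smul q⁻¹
  rwa [smul_smul, hq, Rat.cast_inv, inv_mul_cancel₀ hq0, one_smul] at h3

/-- **Theories of classes on products with powers.** -/
theorem nodal_classes {X Z : GVar W Γ} {n : ℕ} (h : NodalOver χ X n Z)
    {υ : Γ →* (W.H ((power ops X.X n).prod Z.X) ≃ₐ[W.K] W.H ((power ops X.X n).prod Z.X))}
    (hY : IsPowProd X n Z ⟨_, υ⟩) (hth : IsClassTheory W C)
    (hC : AreTateClasses χ C ⟨(power ops X.X n).prod Z.X, υ⟩) :
    GeneratedFrom W C (snd (power ops X.X n) Z.X) ∧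
      (AllAlgebraic W C ((power ops X.X n).prod Z.X) ↔ AllAlgebraic W C Z.X) := by
  have hP : IsPowAct W (⟨X.X, 0⟩ : Polarized 𝒱) n Z.X X.act Z.act υ := by
    cases hY with
    | mk _ h1 h2 => exact isPowAct h1 h2
  obtain ⟨s⟩ := exists_SB h.homEqNum.1
  obtain ⟨b, hb⟩ := exists_monoBasis (ops := ops) (⟨X.X, 0⟩ : Polarized 𝒱) s.e n
  obtain ⟨g, hPL, hχ, hg⟩ := h.node.node
  have hspan : ∀ j, ∀ c ∈ C ((power ops X.X n).prod Z.X) j, c ∈ LSpan W (power ops X.X n) Z.X := by
    intro j c hc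
    obtain ⟨Δ, hΔ, h1⟩ := hC j c hc
    exact tgt_lspan (A := X) (D := 0) h.homEqNum.1 h.irreducible.1
      (Gal.mem_Tgt (P := ⟨X.X, 0⟩) hb h.homEqNum.1 h.irreducible.1 (isGalois h.node.galois) hP h.irreducible.2 hχ
        (trivAct.1 hg) hPL h.few hΔ h1)
  have hgen := prod_generated hth h.homEqNum.2 hspan
  refine ⟨hgen, fun h1 => ?_, fun hZ => generated_algebraic hth hgen hZ⟩
  have h1X : (1 : W.H X.X) ≠ 0 := by
    obtain ⟨δ, hδ, hδ0, _⟩ := hPL
    intro h3
    apply hδ0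
    rw [← one_mul δ, h3, zero_mul]
  have hN1 : (1 : W.H (power ops X.X n)) ≠ 0 := by
    obtain ⟨x, hx⟩ := exists_tr h1X
    have h2 : W.tr (nest ops n fun _ => (⟨X.X, 0⟩ : Polarized 𝒱)).X
        (mono (prj ops n fun _ => (⟨X.X, 0⟩ : Polarized 𝒱)) fun _ => x) ≠ 0 := by
      rw [tr_mono]
      exact pow_ne_zero _ hx
    intro h0
    apply h2
    have h3 : (1 : W.H (nest ops n fun _ => (⟨X.X, 0⟩ : Polarized 𝒱)).X) = 0 := h0
    rw [← one_mul (mono _ _), h3, zero_mul, map_zero]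
  obtain ⟨a, ha, ha0⟩ : ∃ a, W552.AS W (power ops X.X n) a ∧ W.tr _ a ≠ 0 := by
    by_contra hcon
    push Not at hcon
    apply hN1
    refine homEqNum_iff.1 h.homEqNum.2 1 W552.AS.one fun w hw => ?_
    rw [one_mul]
    exact hcon w hw
  exact factor_algebraic hth ha ha0 h1

end Pool.Agent.TH125.Abh
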